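import Pool.Agent.W_bbc525_gd.Final
import Pool.Agent.W_MP_bbc525_pr.Closed

/-!
# The complete upper tail replica symmetry phase diagram for graphs of degree ratio at most two
-/

namespace Pool.Agent.Results.MP_bbc525_pr.DegreeRatioTwo

open MeasureTheory Pool.Agent.W_MP_bbc525_pr Pool.Agent.W_bbc525_h89 Pool.Agent.W_bbc525_td
  Pool.Agent.W_bbc525_gd

/-- **Main theorem.** Let `H` be a finite simple graph with at least one edge, whose maximum degree
is at most twice its smallest positive degree, and let `0 < p ≤ q < 1`.  Then the constant `q` is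
a minimizer of the upper tail variational problem `UT_p(H, q)` if and only if
`I_p(r) - I_p(q) ≥ (q I_p'(q) / (2 e(H))) ∑_v ((r/q)^{deg v} - 1)` for all `r ∈ [0, 1]`.
In this case it is the unique minimizer, if `H` has two different positive degrees or maximum
degree at most two.  If the maximum degree is at most two and `n₂` is the number of vertices of
degree two, the condition is `n₂ (log (q/(1-q)) - log (p/(1-p))) ≤ 2 e(H) q κ(q)`; for `n₂ > 0` and
`q ≠ 1/2` this is `1 ≤ (1 + (q⁻¹ - 1) ^ (1 + (2 e(H)/n₂) q/(1 - 2q))) p`. -/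
theorem result {V : Type*} [Fintype V] [DecidableEq V] (H : SimpleGraph V) [DecidableRel H.Adj]
    (hedge : 0 < H.edgeFinset.card)
    (hdeg : ∀ u v, 0 < H.degree u → H.degree v ≤ 2 * H.degree u)
    {p q : ℝ} (hp : 0 < p) (hpq : p ≤ q) (hq : q < 1) :
    (ReplicaSymmetric H p q ↔
      ∀ r : ℝ, 0 ≤ r → r ≤ 1 →
        (q * (Real.log (q / (1 - q)) - Real.log (p / (1 - p))) / (2 * H.edgeFinset.card)) *
          ∑ v, ((r / q) ^ H.degree v - 1) ≤ relEnt p r - relEnt p q) ∧
    (((∃ u v, 0 < H.degree u ∧ 0 < H.degree v ∧ H.degree u ≠ H.degree v) ∨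
        ∀ v, H.degree v ≤ 2) →
      ReplicaSymmetric H p q → UniqueMinimizer H p q) ∧
    ((∀ v, H.degree v ≤ 2) →
      (ReplicaSymmetric H p q ↔
        ((Finset.univ.filter fun v => H.degree v = 2).card : ℝ) *
          (Real.log (q / (1 - q)) - Real.log (p / (1 - p))) ≤
            2 * H.edgeFinset.card * q * kappa q) ∧
      (0 < (Finset.univ.filter fun v => H.degree v = 2).card → q ≠ 1 / 2 →
        (ReplicaSymmetric H p q ↔
          1 ≤ (1 + (q⁻¹ - 1) ^ (1 + (2 * H.edgeFinset.card /
            ((Finset.univ.filter fun v => H.degree v = 2).card : ℝ)) * q / (1 - 2 * q))) * p))) := by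
  have hp1 : p < 1 := lt_of_le_of_lt hpq hq
  have hq0 : 0 < q := lt_of_lt_of_le hp hpq
  have nec : ReplicaSymmetric H p q → Ncond H p q := fun h r hr hr1 =>
    necessary H hedge hp hpq hq h r hr hr1
  -- the smallest positive degree
  obtain ⟨k, hk, hDK, hkv⟩ : ∃ k, 0 < k ∧ DK H k ∧ ∃ v, H.degree v = k := by
    have hne : (PV H).Nonempty := by
      obtain ⟨e, he⟩ := Finset.card_pos.1 hedge
      have h1 := ndeg_pos H he
      obtain ⟨u, hu⟩ := exists_ndeg (H := H) e
      exact ⟨u, mem_PV.2 (by omega)⟩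
    obtain ⟨u, hu, hmin⟩ := Finset.exists_min_image (PV H) (fun v => H.degree v) hne
    refine ⟨H.degree u, mem_PV.1 hu, fun v => ?_, u, rfl⟩
    rcases Nat.eq_zero_or_pos (H.degree v) with h | h
    · exact Or.inl h
    · exact Or.inr ⟨hmin v (mem_PV.2 h), hdeg u v (mem_PV.1 hu)⟩
  refine ⟨⟨fun h r hr hr1 => ?_, fun h => ?_⟩, fun hD h => ?_, fun hH => ?_⟩
  · have h3 := nec h r hr hr1
    rw [logit_eq hq0 hq, logit_eq hp hp1]
    exact h3
  · refine gd_suff hk hDK hkv hedge hp hpq hq fun r hr hr1 => ?_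
    have h3 := h r hr hr1
    rw [logit_eq hq0 hq, logit_eq hp hp1] at h3
    exact h3
  · rcases hD with ⟨u, v, hu, hv, huv⟩ | hH
    · refine gd_unique hk hDK hkv ?_ hedge hp hpq hq (nec h)
      rcases hDK u with h1 | h1
      · omega
      · rcases hDK v with h2 | h2
        · omega
        · rcases Nat.lt_or_ge k (H.degree u) with h3 | h3
          · exact ⟨u, h3⟩
          · exact ⟨v, by omega⟩
    · exact (diagram_two H hH hedge hp hpq hq).2 h
  · have h := diagram_two H hH hedge hp hpq hq
    rw [kq_eq_kappa hq0 hq] at h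
    have h1 : ReplicaSymmetric H p q ↔
        ((Finset.univ.filter fun v => H.degree v = 2).card : ℝ) *
          (Real.log (q / (1 - q)) - Real.log (p / (1 - p))) ≤
            2 * H.edgeFinset.card * q * kappa q := by
      rw [logit_eq hq0 hq, logit_eq hp hp1]
      exact h.1
    refine ⟨h1, fun hn hh => ?_⟩
    rw [← curve_iff hp hp1 hq0 hq hh, h1, logit_eq hq0 hq, logit_eq hp hp1]
    have hn' : (0:ℝ) < ((Finset.univ.filter fun v => H.degree v = 2).card : ℝ) := by
      exact_mod_cast hn
    rw [div_mul_eq_mul_div, div_mul_eq_mul_div, le_div_iff₀ hn', mul_comm]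

end Pool.Agent.Results.MP_bbc525_pr.DegreeRatioTwo
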