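import Pool.Agent.W_MP_bbc525_pr.Reg
import Pool.Agent.W_MP_bbc525_pr.Closed
import Pool.Agent.W_bbc525_td.Final
import Pool.Agent.W_bbc525_ends.SJ
import Pool.Agent.W_bbc525_ends.L4
import Pool.Agent.W_bbc525_e2.Se

/-!
# Both ends of the phase diagram of an arbitrary graph
-/

namespace Pool.Agent.Results.MP_bbc525_pr.Ends

open MeasureTheory Pool.Agent.W_MP_bbc525_pr Pool.Agent.W_bbc525_h89 Pool.Agent.W_bbc525_td
  Pool.Agent.W_bbc525_ends Pool.Agent.W_bbc525_e2

universe u

/-- **Vertex condition** of the graph `H` at `(p, q)`: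
`I_p(r) - I_p(q) ≥ (q I_p'(q) / (2 e(H))) ∑_v ((r/q)^{deg v} - 1)` for all `r ∈ [0, 1]`. -/
def VertexCond {V : Type u} [Fintype V] [DecidableEq V] (H : SimpleGraph V) [DecidableRel H.Adj]
    (p q : ℝ) : Prop :=
  ∀ r : ℝ, 0 ≤ r → r ≤ 1 →
    (q * (Real.log (q / (1 - q)) - Real.log (p / (1 - p))) / (2 * H.edgeFinset.card)) *
      ∑ v, ((r / q) ^ H.degree v - 1) ≤ relEnt p r - relEnt p q

section aux

variable {V : Type u} [Fintype V] [DecidableEq V] {H : SimpleGraph V} [DecidableRel H.Adj]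

theorem VertexCond.ncond {p q : ℝ} (hp : 0 < p) (hpq : p ≤ q) (hq1 : q < 1)
    (h : VertexCond H p q) : Ncond H p q := by
  have hq : 0 < q := lt_of_lt_of_le hp hpq
  have hp1 : p < 1 := lt_of_le_of_lt hpq hq1
  intro r hr hr1
  have h1 := h r hr hr1
  rwa [logit_eq hq hq1, logit_eq hp hp1] at h1

theorem rs_vertexCond (hE : 0 < H.edgeFinset.card) {p q : ℝ} (hp : 0 < p) (hpq : p ≤ q)
    (hq1 : q < 1) (h : ReplicaSymmetric H p q) : VertexCond H p q := by
  have hq : 0 < q := lt_of_lt_of_le hp hpq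
  have hp1 : p < 1 := lt_of_le_of_lt hpq hq1
  unfold VertexCond
  rw [logit_eq hq hq1, logit_eq hp hp1]
  exact necessary H hE hp hpq hq1 h

theorem rs_of_unique {p q : ℝ} (hp : 0 < p) (hpq : p ≤ q) (hq1 : q < 1)
    (h : UniqueMinimizer H p q) : ReplicaSymmetric H p q := by
  rw [replicaSymmetric_iff H hp hpq hq1]
  intro W hW
  by_contra hcon
  push Not at hcon
  have h1 := h W hW hcon.le
  have h2 : cost p W = relEnt p q := by
    unfold cost
    rw [integral_congr_ae (g := fun _ => relEnt p q) (h1.mono fun z hz => by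
      show relEnt p (W.W z.1 z.2) = relEnt p q
      rw [hz])]
    simp
  linarith

/-- the two statements at one point of the diagram from the sufficiency -/
theorem point (hE : 0 < H.edgeFinset.card) {p q : ℝ} (hp : 0 < p) (hpq : p ≤ q)
    (hq1 : q < 1) (h : Ncond H p q → UniqueMinimizer H p q) :
    (ReplicaSymmetric H p q ↔ VertexCond H p q) ∧
      (ReplicaSymmetric H p q → UniqueMinimizer H p q) :=
  ⟨⟨rs_vertexCond hE hp hpq hq1, fun h1 => rs_of_unique hp hpq hq1 (h (h1.ncond hp hpq hq1))⟩,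
    fun h1 => h ((rs_vertexCond hE hp hpq hq1 h1).ncond hp hpq hq1)⟩

end aux

/-- **Main theorem.** For every finite simple graph `H` with at least one edge the vertex
condition decides replica symmetry, with uniqueness, for all `0 < p ≤ q < 1` such that
(1) `q ≤ 1/11`, or
(2) `q ≤ 1 - 6/(a+3)`, where `a ≥ 4` and every edge of `H` joins two vertices of degree `1` or
has an endpoint of degree at least `a`, or
(3) `q ≥ 1 - c`, where `c > 0` depends on `H`. -/
theorem result (V : Type u) [Fintype V] [DecidableEq V] (H : SimpleGraph V) [DecidableRel H.Adj]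
    (hE : 0 < H.edgeFinset.card) :
    ∃ c : ℝ, 0 < c ∧ c < 1 ∧ ∀ p q : ℝ, 0 < p → p ≤ q → q < 1 →
      (q ≤ 1 / 11 ∨
        (∃ a : ℕ, 4 ≤ a ∧ q ≤ 1 - 6 / ((a : ℝ) + 3) ∧ ∀ u v, H.Adj u v →
          (H.degree u = 1 ∧ H.degree v = 1) ∨ a ≤ H.degree u ∨ a ≤ H.degree v) ∨
        1 - c ≤ q) →
      (ReplicaSymmetric H p q ↔ VertexCond H p q) ∧
      (ReplicaSymmetric H p q → UniqueMinimizer H p q) := by
  have key : ∃ c : ℝ, 0 < c ∧ c < 1 ∧ ∀ p q : ℝ, 0 < p → p ≤ q → 1 - c ≤ q → q < 1 →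
      Ncond H p q → UniqueMinimizer H p q := by
    by_cases h2 : ∃ v, 2 ≤ H.degree v
    · exact large_end' hE h2
    · push Not at h2
      have hH : ∀ v, H.degree v ≤ 2 := fun v => by have := h2 v; omega
      refine ⟨1 / 2, by norm_num, by norm_num, fun p q hp hpq _ hq1 hN => ?_⟩
      exact (diagram_two H hH hE hp hpq hq1).2
        ((diagram_two H hH hE hp hpq hq1).1.2 (deg_two hH hE hp hpq hq1 hN))
  obtain ⟨c, hc, hc1, h⟩ := key
  refine ⟨c, hc, hc1, fun p q hp hpq hq1 hor => point hE hp hpq hq1 fun hN => ?_⟩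
  rcases hor with h1 | ⟨a, ha, hqa, hdeg⟩ | h3
  · exact small_end hE hp hpq h1 hN
  · have ha' : (4 : ℝ) ≤ a := by exact_mod_cast ha
    have hqa' : q * ((a : ℝ) + 3) ≤ a - 3 := by
      have h1 := mul_le_mul_of_nonneg_right hqa (by linarith : (0 : ℝ) ≤ (a : ℝ) + 3)
      have e : (1 - 6 / ((a : ℝ) + 3)) * ((a : ℝ) + 3) = a - 3 := by
        have : (a : ℝ) + 3 ≠ 0 := by linarith
        field_simp
        ring
      linarith
    refine small_end2 hE hp hpq hq1 ha hqa' ?_ hN
    intro e he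
    induction e using Sym2.ind with
    | _ u v =>
      rw [SimpleGraph.mem_edgeFinset, SimpleGraph.mem_edgeSet] at he
      rw [mdeg_mk]
      rcases hdeg u v he with ⟨h4, h5⟩ | h4 | h4
      · left
        rw [h4, h5]
        rfl
      · right
        exact le_max_of_le_left h4
      · right
        exact le_max_of_le_right h4
  · exact h p q hp hpq h3 hq1 hN

end Pool.Agent.Results.MP_bbc525_pr.Ends
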