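import Pool.Agent.W_MP_bbc525_pr.Reg
import Pool.Agent.W_MP_bbc525_pr.Closed
import Pool.Agent.W_bbc525_c1.Fi
import Pool.Agent.W_bbc525_c1.Tc
import Pool.Agent.W_bbc525_gd.Final

/-!
# The first transition of biregular graphs
-/

namespace Pool.Agent.Results.MP_bbc525_pr.FirstTransition

open MeasureTheory Pool.Agent.W_MP_bbc525_pr Pool.Agent.W_bbc525_h89 Pool.Agent.W_bbc525_td
  Pool.Agent.W_bbc525_ends Pool.Agent.W_bbc525_b1 Pool.Agent.W_bbc525_c1 Pool.Agent.W_bbc525_gd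

universe u

/-- **The condition** on `(p, q)` for the degrees `a`, `b`:
`I_p(r) - I_p(q) ≥ q I_p'(q) (((r/q)^a - 1) / (2 a) + ((r/q)^b - 1) / (2 b))` for all
`r ∈ [0, 1]`, with `I_p'(q) = log (q/(1-q)) - log (p/(1-p))`. -/
def EdgeCond (a b : ℕ) (p q : ℝ) : Prop :=
  ∀ r : ℝ, 0 ≤ r → r ≤ 1 →
    q * (Real.log (q / (1 - q)) - Real.log (p / (1 - p))) *
      (((r / q) ^ a - 1) / (2 * a) + ((r / q) ^ b - 1) / (2 * b)) ≤ relEnt p r - relEnt p q

section aux

variable {V : Type u} [Fintype V] [DecidableEq V] {H : SimpleGraph V} [DecidableRel H.Adj]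

theorem edgeCond_EC {a b : ℕ} {p q : ℝ} (hp : 0 < p) (hpq : p ≤ q) (hq1 : q < 1) :
    EdgeCond a b p q ↔ EC a b p q := by
  have hq : 0 < q := lt_of_lt_of_le hp hpq
  have hp1 : p < 1 := lt_of_le_of_lt hpq hq1
  unfold EdgeCond EC
  rw [logit_eq hq hq1, logit_eq hp hp1]

theorem sum_bireg (hE : 0 < H.edgeFinset.card) {a b : ℕ}
    (hH : ∀ e ∈ H.edgeFinset, mdeg H e = a ∧ ndeg H e = b) (X : ℝ) (T : ℝ) :
    T / (2 * (H.edgeFinset.card : ℝ)) * ∑ v, (X ^ H.degree v - 1) =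
      T * ((X ^ a - 1) / (2 * a) + (X ^ b - 1) / (2 * b)) := by
  have hE' : (0 : ℝ) < H.edgeFinset.card := by exact_mod_cast hE
  have h1 := Fi_psi hE hH X
  unfold PsiV ps at h1
  have h2 : 1 / (2 * (H.edgeFinset.card : ℝ)) * ∑ v, (X ^ H.degree v - 1) =
      (X ^ a - 1) / (2 * a) + (X ^ b - 1) / (2 * b) := by
    have e1 : (X ^ a - 1) / (2 * (a : ℝ)) = (X ^ a - 1) / a / 2 := by
      rw [div_div, mul_comm]
    have e2 : (X ^ b - 1) / (2 * (b : ℝ)) = (X ^ b - 1) / b / 2 := by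
      rw [div_div, mul_comm]
    rw [e1, e2]
    linarith
  rw [← h2]
  ring

theorem edgeCond_iff (hE : 0 < H.edgeFinset.card) {a b : ℕ}
    (hH : ∀ e ∈ H.edgeFinset, mdeg H e = a ∧ ndeg H e = b) {p q : ℝ} (hp : 0 < p) (hpq : p ≤ q)
    (hq1 : q < 1) : EdgeCond a b p q ↔ Ncond H p q := by
  rw [edgeCond_EC hp hpq hq1]
  unfold EC Ncond
  refine forall_congr' fun r => forall_congr' fun _ => forall_congr' fun _ => ?_
  rw [sum_bireg hE hH]

theorem rs_of_unique {p q : ℝ} (hp : 0 < p) (hpq : p ≤ q) (hq1 : q < 1)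
    (h : UniqueMinimizer H p q) : ReplicaSymmetric H p q := by
  rw [replicaSymmetric_iff H hp hpq hq1]
  intro W hW
  by_contra hcon
  push Not at hcon
  have h1 := h W hW hcon.le
  have h2 : cost p W = relEnt p q := by
    unfold cost
    rw [integral_congr_ae (g := fun _ => relEnt p q) (h1.mono fun z hz => by
      show relEnt p (W.W z.1 z.2) = relEnt p q
      rw [hz])]
    simp
  linarith

end aux

/-- **Main theorem.** Let `H` be a biregular graph: it has at least one edge, and every edge joins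
a vertex of degree `a` and a vertex of degree `b`, `1 ≤ b < a`. Let `0 < p ≤ q < 1`, and let
`q ≤ ((a-1)^2 + (b-1)^2) / (a (a-1) + b (b-1))` or let the condition `EdgeCond a b p w` fail for
some `w ∈ [p, 1)`. There is replica symmetry at all points `(p, v)`, `p ≤ v ≤ q`, iff
`EdgeCond a b p v` holds for all `v ∈ [p, q]`, and then the constant `q` is the unique minimizer at
`(p, q)`. So for every `p` the symmetry breaks for the first time exactly where the condition fails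
for the first time. -/
theorem result (V : Type u) [Fintype V] [DecidableEq V] (H : SimpleGraph V) [DecidableRel H.Adj]
    (hE : 0 < H.edgeFinset.card) (a b : ℕ) (hb : 1 ≤ b) (hab : b < a)
    (hH : ∀ u v, H.Adj u v →
      (H.degree u = a ∧ H.degree v = b) ∨ (H.degree u = b ∧ H.degree v = a))
    (p q : ℝ) (hp : 0 < p) (hpq : p ≤ q) (hq1 : q < 1)
    (hq : q ≤ (((a : ℝ) - 1) ^ 2 + ((b : ℝ) - 1) ^ 2) /
      ((a : ℝ) * ((a : ℝ) - 1) + (b : ℝ) * ((b : ℝ) - 1)) ∨
      ∃ w : ℝ, p ≤ w ∧ w < 1 ∧ ¬ EdgeCond a b p w) :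
    ((∀ v : ℝ, p ≤ v → v ≤ q → ReplicaSymmetric H p v) ↔
      ∀ v : ℝ, p ≤ v → v ≤ q → EdgeCond a b p v) ∧
    ((∀ v : ℝ, p ≤ v → v ≤ q → EdgeCond a b p v) → UniqueMinimizer H p q) := by
  have he : ∀ e ∈ H.edgeFinset, mdeg H e = a ∧ ndeg H e = b := by
    intro e he
    induction e using Sym2.ind with
    | _ u v =>
      rw [SimpleGraph.mem_edgeFinset, SimpleGraph.mem_edgeSet] at he
      rw [mdeg_mk, ndeg_mk]
      rcases hH u v he with ⟨h1, h2⟩ | ⟨h1, h2⟩
      · rw [h1, h2]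
        omega
      · rw [h1, h2]
        omega
  have hb' : (1 : ℝ) ≤ b := by exact_mod_cast hb
  have hab' : (b : ℝ) + 1 ≤ a := by exact_mod_cast hab
  have hden : 0 < (a : ℝ) * ((a : ℝ) - 1) + (b : ℝ) * ((b : ℝ) - 1) := by
    have h2 : 0 ≤ (b : ℝ) * ((b : ℝ) - 1) := mul_nonneg (by linarith) (by linarith)
    have h3 : 0 < (a : ℝ) * ((a : ℝ) - 1) := mul_pos (by linarith) (by linarith)
    linarith
  have key : ∀ v : ℝ, p ≤ v → v ≤ q → (∀ w : ℝ, p ≤ w → w ≤ v → EdgeCond a b p w) →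
      UniqueMinimizer H p v := by
    intro v hpv hvq hV
    have hv1 : v < 1 := lt_of_le_of_lt hvq hq1
    have hN : ∀ w, p ≤ w → w ≤ v → Ncond H p w := fun w hw hwv =>
      (edgeCond_iff hE he hp hw (lt_of_le_of_lt hwv hv1)).1 (hV w hw hwv)
    have hvc : v * ((a : ℝ) * ((a : ℝ) - 1) + (b : ℝ) * ((b : ℝ) - 1)) ≤
        ((a : ℝ) - 1) ^ 2 + ((b : ℝ) - 1) ^ 2 := by
      rcases hq with hq | ⟨w, hpw, hw1, hw⟩
      · rw [← le_div_iff₀ hden]
        exact hvq.trans hq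
      · rw [edgeCond_EC hp hpw hw1] at hw
        exact below_cusp hb hab hp hpv hpw hw1 (fun x hx hxv =>
          (edgeCond_EC hp hx (lt_of_le_of_lt hxv hv1)).1 (hV x hx hxv)) hw
    rcases Nat.lt_or_ge (2 * b) a with h2 | h2
    · rcases Nat.lt_or_ge b 2 with h3 | h3
      · -- stars
        have hb1 : b = 1 := by omega
        refine lower_star hE (fun e h => by rw [(he e h).2, hb1]) hp hpv hv1
          (fun e h _ => ?_) (fun w hw hwv => hN w hw.le hwv)
        rw [(he e h).1]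
        rw [hb1] at hvc
        norm_num at hvc
        have h4 : 0 < (a : ℝ) - 1 := by linarith
        have h5 : (v * a) * ((a : ℝ) - 1) ≤ ((a : ℝ) - 1) * ((a : ℝ) - 1) := by linarith
        exact le_of_mul_le_mul_right h5 h4
      · exact lower_bireg hE h3 h2 he hp hpv hv1 hvc (fun w hw hwv => hN w hw.le hwv)
    · -- degree ratio at most two
      obtain ⟨e, hee⟩ := Finset.card_pos.1 hE
      obtain ⟨x, hx⟩ := exists_ndeg (H := H) e
      obtain ⟨y, hy⟩ := exists_mdeg (H := H) e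
      rw [(he e hee).2] at hx
      rw [(he e hee).1] at hy
      refine gd_unique (k := b) (by omega) (fun z => ?_) ⟨x, hx.symm⟩ ⟨y, by omega⟩ hE hp hpv hv1
        (hN v hpv le_rfl)
      rcases Nat.eq_zero_or_pos (H.degree z) with hz | hz
      · exact Or.inl hz
      · obtain ⟨w, hw⟩ := (H.degree_pos_iff_exists_adj z).1 hz
        rcases hH z w hw with ⟨h5, _⟩ | ⟨h5, _⟩ <;> right <;> omega
  refine ⟨⟨fun h v hpv hvq => ?_, fun h v hpv hvq => ?_⟩, fun h => key q hpq le_rfl h⟩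
  · have hv1 : v < 1 := lt_of_le_of_lt hvq hq1
    exact (edgeCond_iff hE he hp hpv hv1).2 (fun r hr hr1 =>
      necessary H hE hp hpv hv1 (h v hpv hvq) r hr hr1)
  · exact rs_of_unique hp hpv (lt_of_le_of_lt hvq hq1)
      (key v hpv hvq fun w hw hwv => h w hw (hwv.trans hvq))

end Pool.Agent.Results.MP_bbc525_pr.FirstTransition
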