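import Pool.Agent.W_MP_bbc525_pr.Reg
import Pool.Agent.W_MP_bbc525_pr.Closed
import Pool.Agent.W_bbc525_gd.Cex5

/-!
# The vertex condition: necessary for every graph, not sufficient for large stars
-/

namespace Pool.Agent.Results.MP_bbc525_pr.VertexCondition

open Pool.Agent.W_MP_bbc525_pr Pool.Agent.W_bbc525_gd Pool.Agent.W_bbc525_td

universe u

/-- **Vertex condition** of the graph `H` at `(p, q)`:
`I_p(r) - I_p(q) ≥ (q I_p'(q) / (2 e(H))) ∑_v ((r/q)^{deg v} - 1)` for all `r ∈ [0, 1]`. -/
def VertexCond {V : Type u} [Fintype V] [DecidableEq V] (H : SimpleGraph V) [DecidableRel H.Adj]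
    (p q : ℝ) : Prop :=
  ∀ r : ℝ, 0 ≤ r → r ≤ 1 →
    (q * (Real.log (q / (1 - q)) - Real.log (p / (1 - p))) / (2 * H.edgeFinset.card)) *
      ∑ v, ((r / q) ^ H.degree v - 1) ≤ relEnt p r - relEnt p q

/-- **Main theorem.** For every finite simple graph `H` with at least one edge the region of
replica symmetry is contained in the region given by the vertex condition; for every star
`K_{1,k}` with `k ≥ 15` the inclusion is strict. -/
theorem result :
    (∀ (V : Type u) [Fintype V] [DecidableEq V] (H : SimpleGraph V) [DecidableRel H.Adj]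
      (p q : ℝ), 0 < H.edgeFinset.card → 0 < p → p ≤ q → q < 1 →
        ReplicaSymmetric H p q → VertexCond H p q) ∧
    (∀ k : ℕ, 15 ≤ k → ∃ p q : ℝ, 0 < p ∧ p < q ∧ q < 1 ∧
        VertexCond (SimpleGraph.starGraph (0 : Fin (k + 1))) p q ∧
        ¬ ReplicaSymmetric (SimpleGraph.starGraph (0 : Fin (k + 1))) p q) := by
  constructor
  · intro V _ _ H _ p q hedge hp hpq hq h
    have hq0 : 0 < q := lt_of_lt_of_le hp hpq
    have hp1 : p < 1 := lt_of_le_of_lt hpq hq
    unfold VertexCond
    rw [logit_eq hq0 hq, logit_eq hp hp1]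
    exact necessary H hedge hp hpq hq h
  · intro k hk
    obtain ⟨p, q, hp, hpq, hq, hN, hR⟩ := star_cex15 hk
    refine ⟨p, q, hp, hpq, hq, ?_, hR⟩
    have hq0 : 0 < q := lt_trans hp hpq
    have hp1 : p < 1 := lt_trans hpq hq
    unfold VertexCond
    rw [logit_eq hq0 hq, logit_eq hp hp1]
    exact hN

end Pool.Agent.Results.MP_bbc525_pr.VertexCondition
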